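import Pool.Agent.TH641.NW.End2
import Pool.Agent.TH641.UM.Ones

/-! Uniform multiplicities: from the critical degree to all degrees, for every `n ≥ 10`. -/

namespace Pool.Agent.TH641.UM

open Finset Pool.Agent.TH176.Nag Pool.Agent.TH603.Sur Pool.Agent.H932R3

/-- emptiness or independence, according to the sign, in all degrees with
`|2 d + 3 - √n (2 m + 1)| < ε` -/
def CritE (ε : ℝ) (n m : ℕ) : Prop := ∀ d : ℕ, |2 * (d : ℝ) + 3 - √(n : ℝ) * (2 * m + 1)| < ε →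
  ((d + 2).choose 2 ≤ n * (m + 1).choose 2 → Emp (fun _ : Fin n => m) (TZ d)) ∧
  (n * (m + 1).choose 2 ≤ (d + 2).choose 2 → Sur (fun _ : Fin n => m) (TZ d))

/-- the half-windows are smaller than `4 / 3` -/
theorem half_lt {n : ℕ} (hn : 10 ≤ n) : min (√(n : ℝ) - 3) (2 / 3 + 9 / (4 * √(n : ℝ))) < 4 / 3 ∧
    min (√(n : ℝ) - 3) (2 / 3 + 1 / (4 * √(n : ℝ))) < 4 / 3 := by
  rcases le_or_gt n 15 with h | h
  · have h1 : √(n : ℝ) < 4 := by
      rw [Real.sqrt_lt' (by norm_num)]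
      have : (n : ℝ) ≤ 15 := by exact_mod_cast h
      linarith
    exact ⟨(min_le_left _ _).trans_lt (by linarith), (min_le_left _ _).trans_lt (by linarith)⟩
  · have h1 : 4 ≤ √(n : ℝ) := by
      apply Real.le_sqrt_of_sq_le
      have : (16 : ℝ) ≤ n := by exact_mod_cast h
      linarith
    have h4 : 9 / (4 * √(n : ℝ)) ≤ 9 / 16 := by
      apply div_le_div_of_nonneg_left (by norm_num) (by norm_num); linarith
    have h5 : 1 / (4 * √(n : ℝ)) ≤ 1 / 16 := by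
      apply div_le_div_of_nonneg_left (by norm_num) (by norm_num); linarith
    exact ⟨(min_le_right _ _).trans_lt (by linarith), (min_le_right _ _).trans_lt (by linarith)⟩

/-- **from the critical degrees to all degrees** -/
theorem expDim_all_of_crit {n : ℕ} (hn : 10 ≤ n) {m : ℕ} (hm : 1 ≤ m)
    (hC : (n : ℝ) - 6 * √(n : ℝ) + 10 ≤ m → CritE (4 / 3) n m) {L : Type} [Field L] [CharZero L] :
    ∃ F : MvPolynomial (Fin n × Fin 2) ℚ, F ≠ 0 ∧ ∀ (P : Fin n → Fin 2 → L),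
      MvPolynomial.aeval (fun ij : Fin n × Fin 2 => P ij.1 ij.2) F ≠ 0 →
      ∀ d : ℕ, ExpDim L (fun _ => m) P d := by
  rcases le_or_gt (((m + 1 : ℕ) : ℝ)) ((n : ℝ) - 6 * √(n : ℝ) + 11) with hsm | hlg
  · obtain ⟨F, hF, hF'⟩ := near_points (L := L) (n := n) (m := m) hn hm (w := fun _ => m)
      (fun _ => Or.inl rfl) (near_cond (by omega) (fun _ => Or.inl rfl) (Or.inl hsm))
    exact ⟨F, hF, fun P hP d => hF' P hP d⟩
  · have hmR : (n : ℝ) - 6 * √(n : ℝ) + 10 ≤ m := by push_cast at hlg; linarith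
    have hcr := hC hmR
    obtain ⟨F1, hF1, h1⟩ := Pool.Agent.TH641.NW.expDim_uni_win2 (L := L) hn hm
    have hw := half_lt hn
    have hb : ∀ d : ℕ, |2 * (d : ℝ) + 3 - √(n : ℝ) * (2 * m + 1)| < 4 / 3 →
        d ≤ ⌈√(n : ℝ) * (2 * m + 1) + 4 / 3⌉₊ := by
      intro d hd
      have h3 := (abs_lt.1 hd).2
      have h4 := Nat.le_ceil (√(n : ℝ) * (2 * m + 1) + 4 / 3)
      have h5 : (d : ℝ) ≤ (⌈√(n : ℝ) * (2 * m + 1) + 4 / 3⌉₊ : ℝ) := by
        have : (0 : ℝ) ≤ d := Nat.cast_nonneg d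
        linarith
      exact_mod_cast h5
    obtain ⟨F2, hF2, h2⟩ := expDim_two (w := fun _ : Fin n => m)
      (A := fun d => |2 * (d : ℝ) + 3 - √(n : ℝ) * (2 * m + 1)| < 4 / 3 ∧
        (d + 2).choose 2 ≤ n * (m + 1).choose 2)
      (B := fun d => |2 * (d : ℝ) + 3 - √(n : ℝ) * (2 * m + 1)| < 4 / 3 ∧
        n * (m + 1).choose 2 ≤ (d + 2).choose 2)
      ⌈√(n : ℝ) * (2 * m + 1) + 4 / 3⌉₊ (fun d hd => hb d hd.1) (fun d hd => (hcr d hd.1).1 hd.2)
      (fun d hd => (hcr d hd.1).2 hd.2)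
    refine ⟨F1 * F2, mul_ne_zero hF1 hF2, fun P hP d => ?_⟩
    rw [map_mul] at hP
    rcases le_or_gt (4 / 3) |2 * (d : ℝ) + 3 - √(n : ℝ) * (2 * m + 1)| with h | h
    · refine h1 P (left_ne_zero_of_mul hP) d ?_
      rcases le_abs.1 h with h3 | h3
      · right; linarith [hw.2]
      · left; linarith [hw.1]
    · refine h2 P (right_ne_zero_of_mul hP) d ?_
      rcases le_total ((d + 2).choose 2) (n * (m + 1).choose 2) with h3 | h3
      · exact Or.inl ⟨h, h3⟩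
      · exact Or.inr ⟨h, h3⟩

end Pool.Agent.TH641.UM
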