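import Pool.Agent.TH641.UM.Ones

/-! Emptiness for multisets of multiplicities, and the iteration over bubbles. -/

namespace Pool.Agent.TH641.UM

open Finset Pool.Agent.TH176.Nag Pool.Agent.TH603.Sur

/-- the multiset of the values -/
def ms {ι : Type} [Fintype ι] (w : ι → ℕ) : Multiset ℕ := ∑ i, {w i}

theorem ms_sum {ι κ : Type} [Fintype ι] [Fintype κ] (w : ι → ℕ) (v : κ → ℕ) :
    ms (Sum.elim w v) = ms w + ms v := by simp [ms, Fintype.sum_sum_type]

theorem ms_const {ι : Type} [Fintype ι] (c : ℕ) : ms (fun _ : ι => c) = Fintype.card ι • {c} := by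
  simp [ms]

theorem ms_fin (a c : ℕ) : ms (fun _ : Fin a => c) = a • {c} := by
  rw [ms_const, Fintype.card_fin]

theorem ms_option {ι : Type} [Fintype ι] (D : ℕ) (w : ι → ℕ) :
    ms (fun o : Option ι => o.elim D w) = {D} + ms w := by
  simp [ms, Fintype.sum_option]

theorem count_ms {ι : Type} [Fintype ι] (w : ι → ℕ) (a : ℕ) :
    (ms w).count a = Fintype.card {i // w i = a} := by
  classical
  unfold ms
  rw [Multiset.count_sum', Fintype.card_subtype, card_filter]
  refine sum_congr rfl fun i _ => ?_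
  rw [Multiset.count_singleton]
  simp only [eq_comm]

theorem exists_fam (M : Multiset ℕ) : ms (fun i : Fin M.toList.length => M.toList.get i) = M := by
  unfold ms
  have h : ∀ l : List ℕ, ∑ i : Fin l.length, ({l.get i} : Multiset ℕ) = (↑l : Multiset ℕ) := by
    intro l
    induction l with
    | nil => simp
    | cons a l ih =>
      refine (Fin.sum_univ_succ (n := l.length) (fun i => ({(a :: l).get i} : Multiset ℕ))).trans ?_
      have e : ∀ i : Fin l.length, (a :: l).get i.succ = l.get i := fun i => rfl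
      simp only [e, ih]
      rfl
  rw [h, Multiset.coe_toList]

/-- emptiness depends on the multiset of the multiplicities only, and is monotone in it -/
theorem Emp_of_ms {ι κ : Type} [Fintype ι] [Fintype κ] {w : ι → ℕ} {v : κ → ℕ} {S : Set (ℤ × ℤ)}
    (h : ms w ≤ ms v) (hE : Emp w S) : Emp v S := by
  classical
  have h1 : ∀ a : ℕ, Nonempty ({i // w i = a} ↪ {j // v j = a}) := by
    intro a
    apply Function.Embedding.nonempty_of_card_le
    rw [← count_ms, ← count_ms]
    exact Multiset.count_le_of_le a h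
  let e := fun a => (h1 a).some
  have hv : ∀ i, v ((e (w i) ⟨i, rfl⟩).1) = w i := fun i => (e (w i) ⟨i, rfl⟩).2
  refine Emp_emb (fun i => (e (w i) ⟨i, rfl⟩).1) ?_ (fun i => (hv i).ge) hE
  intro i i' hii
  have key : ∀ a (hi : w i = a) (hi' : w i' = a), (e a ⟨i, hi⟩).1 = (e a ⟨i', hi'⟩).1 → i = i' := by
    intro a hi hi' hh
    have := (e a).injective (Subtype.ext hh)
    exact congrArg Subtype.val this
  have h2 : w i = w i' := by rw [← hv i, ← hv i']; exact congrArg v hii
  refine key (w i) rfl h2.symm ?_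
  have h3 : ∀ a (hi' : w i' = a), (e (w i') ⟨i', rfl⟩).1 = (e a ⟨i', hi'⟩).1 := by
    intro a hi'
    subst hi'
    rfl
  rw [← h3 (w i) h2.symm]
  exact hii

/-- emptiness for a multiset of multiplicities -/
def EmpM (M : Multiset ℕ) (S : Set (ℤ × ℤ)) : Prop :=
  Emp (fun i : Fin M.toList.length => M.toList.get i) S

theorem EmpM_ms {ι : Type} [Fintype ι] (w : ι → ℕ) (S : Set (ℤ × ℤ)) : EmpM (ms w) S ↔ Emp w S := by
  constructor
  · exact Emp_of_ms (exists_fam (ms w)).le
  · exact Emp_of_ms (exists_fam (ms w)).ge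

theorem EmpM_iff {ι : Type} [Fintype ι] {w : ι → ℕ} {M : Multiset ℕ} (h : ms w = M) (S : Set (ℤ × ℤ)) :
    EmpM M S ↔ Emp w S := by rw [← h]; exact EmpM_ms w S

theorem EmpM.mono {M M' : Multiset ℕ} {S : Set (ℤ × ℤ)} (h : EmpM M S) (hM : M ≤ M') : EmpM M' S := by
  refine Emp_of_ms ?_ h
  rw [exists_fam, exists_fam]
  exact hM

theorem EmpM.mono_set {M : Multiset ℕ} {S S' : Set (ℤ × ℤ)} (h : EmpM M S') (hS : S ⊆ S') : EmpM M S :=
  Emp.mono h hS

/-- the matching lemma -/
def MatchHyp : Prop := ∀ {ι₁ ι₂ : Type} [Finite ι₁] [Finite ι₂] (w₁ : ι₁ → ℕ) (w₂ : ι₂ → ℕ) (D d p q : ℕ),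
  1 ≤ D → p + q ≤ D + 1 →
  Emp (Sum.elim w₁ (fun _ : Fin p => 1)) (TZ D) → Emp w₁ (TZ (D - 1)) →
  Emp (Sum.elim (fun o : Option ι₂ => o.elim D w₂) (fun _ : Fin q => 1)) (TZ d) →
  Emp (fun o : Option ι₂ => o.elim (D + 1) w₂) (TZ d) → Emp (Sum.elim w₁ w₂) (TZ d)

theorem match_M (hM : MatchHyp) {M1 M2 : Multiset ℕ} {D d p q : ℕ} (hD : 1 ≤ D) (hpq : p + q ≤ D + 1)
    (h1 : EmpM (M1 + p • {1}) (TZ D)) (h2 : EmpM M1 (TZ (D - 1)))
    (h3 : EmpM ({D} + M2 + q • {1}) (TZ d)) (h4 : EmpM ({D + 1} + M2) (TZ d)) :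
    EmpM (M1 + M2) (TZ d) := by
  have e1 := exists_fam M1
  have e2 := exists_fam M2
  set w1 := fun i : Fin M1.toList.length => M1.toList.get i with hw1
  set w2 := fun i : Fin M2.toList.length => M2.toList.get i with hw2
  have h := hM w1 w2 D d p q hD hpq
    ((EmpM_iff (by rw [ms_sum, ms_fin, e1]) _).1 h1) h2
    ((EmpM_iff (by rw [ms_sum, ms_option, ms_fin, e2]) _).1 h3)
    ((EmpM_iff (by rw [ms_option, e2]) _).1 h4)
  exact (EmpM_iff (by rw [ms_sum, e1, e2]) _).2 h

/-- **the iteration over `B` bubbles** of multiplicity multiset `M1`, degree `D` -/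
theorem iter_M (hM : MatchHyp) {M1 : Multiset ℕ} {D d p q : ℕ} (hD : 1 ≤ D) (hpq : p + q ≤ D + 1)
    (h1 : EmpM (M1 + p • {1}) (TZ D)) (h2 : EmpM M1 (TZ (D - 1))) (B : ℕ) (W : Multiset ℕ)
    (h : ∀ e f : ℕ, e + f = B →
      EmpM (e • {D + 1} + f • {D} + (f * q) • {1} + W) (TZ d)) :
    EmpM (B • M1 + W) (TZ d) := by
  have key : ∀ b c : ℕ, b + c = B → ∀ e f : ℕ, e + f = c →
      EmpM (b • M1 + (e • {D + 1} + f • {D} + (f * q) • {1} + W)) (TZ d) := by
    intro b
    induction b with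
    | zero =>
      intro c hc e f hef
      rw [zero_smul, zero_add]
      exact h e f (by omega)
    | succ b ih =>
      intro c hc e f hef
      have a1 := ih (c + 1) (by omega) e (f + 1) (by omega)
      have a2 := ih (c + 1) (by omega) (e + 1) f (by omega)
      have a3 := match_M hM (M1 := M1)
        (M2 := b • M1 + (e • {D + 1} + f • {D} + (f * q) • {1} + W)) hD hpq h1 h2
        (a1.mono (le_of_eq (by
          rw [add_smul f 1, one_smul, add_mul, one_mul, add_smul (f * q) q]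
          abel)))
        (a2.mono (le_of_eq (by
          rw [add_smul e 1, one_smul]
          abel)))
      refine a3.mono (le_of_eq ?_)
      rw [add_smul b 1, one_smul]
      abel
  have h0 := key B 0 (by omega) 0 0 rfl
  simpa using h0

end Pool.Agent.TH641.UM
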