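import Pool.Agent.TH641.UM.PSide
import Pool.Agent.TH641.UM.MS

/-! One bubble of `k ^ 2` points: the critical degrees from the matching lemma and the two systems with
one big point. -/

namespace Pool.Agent.TH641.UM

open Finset Pool.Agent.TH176.Nag Pool.Agent.TH603.Sur Pool.Agent.H932R3

theorem two_choose (a : ℕ) : 2 * (a + 1).choose 2 = a * (a + 1) := by
  have h := Nat.choose_two_right (a + 1)
  rw [Nat.add_sub_cancel] at h
  have h2 : Even ((a + 1) * a) := by
    rw [mul_comm]; exact Nat.even_mul_succ_self a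
  rw [h, Nat.mul_div_cancel' h2.two_dvd]
  ring

/-- **the critical degrees** -/
theorem crit_of_F (hM : MatchHyp) {k k' m r d n : ℕ} (hk : 14 ≤ k) (hk' : k = 2 * k') (hm : 3 * k ≤ 2 * m)
    (hn : n = k ^ 2 + r)
    (F1 : Sur (fun o : Option (Fin r) => o.elim (k * m + k' - 1) (fun _ => m)) (TZ d))
    (F2 : Emp (fun o : Option (Fin r) => o.elim (k * m + k') (fun _ => m)) (TZ d)) :
    ((d + 2).choose 2 ≤ n * (m + 1).choose 2 → Emp (fun _ : Fin n => m) (TZ d)) ∧
    (n * (m + 1).choose 2 ≤ (d + 2).choose 2 → Sur (fun _ : Fin n => m) (TZ d)) := by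
  subst hn
  obtain ⟨δ, hδ⟩ : ∃ δ : ℕ, δ + 1 = k * m + k' := ⟨k * m + k' - 1, by omega⟩
  have hδ1 : 1 ≤ δ := by
    have : 1 ≤ k' := by omega
    have h2 : 2 ≤ k * m := by nlinarith
    omega
  have e1 : k * m + k' - 1 = δ := by omega
  have e2 : k * m + k' - 2 = δ - 1 := by omega
  rw [e1] at F1
  rw [← hδ] at F2
  have P1 := Sur_P (m := m) (by omega : 4 ≤ k) hk'
  have P2 := Emp_P hk hk' hm
  rw [e1] at P1
  rw [e2] at P2
  obtain ⟨b, hb⟩ : ∃ b : ℕ, b = (m + 1).choose 2 := ⟨_, rfl⟩
  have hb2 : 2 * b = m * (m + 1) := by rw [hb]; exact two_choose m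
  have c1 : 2 * (δ + 2).choose 2 = (δ + 1) * (δ + 2) := two_choose (δ + 1)
  have c2 : 2 * (δ + 1).choose 2 = δ * (δ + 1) := two_choose δ
  -- the number of simple points
  have hkey : k ^ 2 * b ≤ (δ + 2).choose 2 ∧ (δ + 2).choose 2 ≤ k ^ 2 * b + (δ + 1) := by
    have h3 : k ^ 2 * (2 * b) ≤ 2 * (δ + 2).choose 2 ∧
        2 * (δ + 2).choose 2 ≤ k ^ 2 * (2 * b) + 2 * (δ + 1) := by
      have e3 : δ + 2 = k * m + k' + 1 := by omega
      rw [c1, hb2, e3, hδ, hk']
      constructor
      · nlinarith
      · rw [hk'] at hm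
        nlinarith
    constructor
    · nlinarith [h3.1]
    · nlinarith [h3.2]
  obtain ⟨p, hp⟩ : ∃ p : ℕ, k ^ 2 * b + p = (δ + 2).choose 2 := ⟨_, Nat.add_sub_of_le hkey.1⟩
  obtain ⟨q, hq⟩ : ∃ q : ℕ, p + q = δ + 1 := ⟨δ + 1 - p, by omega⟩
  have cP : cond (fun _ : Fin (k ^ 2) => m) = k ^ 2 * b := by simp [Pool.Agent.TH603.Sur.cond, hb]
  have P1' := Emp_ones (p := p) P1 (by rw [cP]; omega)
  have cF : cond (fun o : Option (Fin r) => o.elim δ (fun _ => m)) = (δ + 1).choose 2 + r * b := by
    simp [Pool.Agent.TH603.Sur.cond, hb, Fintype.sum_option]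
  have hn : (k ^ 2 + r) * b = k ^ 2 * b + r * b := by ring
  have hcc : (δ + 1).choose 2 + (δ + 1) = (δ + 2).choose 2 := by
    have : 2 * ((δ + 1).choose 2 + (δ + 1)) = 2 * (δ + 2).choose 2 := by
      rw [mul_add, c1, c2]; ring
    omega
  rw [← hb, hn]
  constructor
  · intro hχ
    have F1' := Emp_ones (p := q) F1 (by rw [cF]; omega)
    have h := hM (fun _ : Fin (k ^ 2) => m) (fun _ : Fin r => m) δ d p q hδ1 hq.le P1' P2 F1' F2
    refine Emp_emb finSumFinEquiv finSumFinEquiv.injective ?_ h
    rintro (i | i) <;> simp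
  · intro hχ
    obtain ⟨c, hc⟩ : ∃ c : ℕ, k ^ 2 * b + r * b + c = (d + 2).choose 2 := ⟨_, Nat.add_sub_of_le hχ⟩
    have F1' := Emp_ones (p := c + q) F1 (by rw [cF]; omega)
    have F1'' : Emp (Sum.elim (fun o : Option (Fin r ⊕ Fin c) =>
        o.elim δ (Sum.elim (fun _ : Fin r => m) (fun _ : Fin c => 1))) (fun _ : Fin q => 1)) (TZ d) := by
      refine Emp_emb (fun s => Sum.elim (fun t => Sum.inl (Option.map Sum.inl t))
        (fun j => Sum.elim (fun i => Sum.inl (some (Sum.inr i))) (fun i => Sum.inr i)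
          (finSumFinEquiv.symm j)) s) ?_ ?_ F1'
      · rintro ((_ | i) | i) ((_ | j) | j) h
        · rfl
        · simp at h
        · simp only [Sum.elim_inl, Sum.elim_inr] at h
          obtain ⟨s, rfl⟩ := finSumFinEquiv.surjective j
          rw [Equiv.symm_apply_apply] at h
          rcases s with s | s <;> simp at h
        · simp at h
        · simpa using h
        · simp only [Sum.elim_inl, Sum.elim_inr] at h
          obtain ⟨s, rfl⟩ := finSumFinEquiv.surjective j
          rw [Equiv.symm_apply_apply] at h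
          rcases s with s | s <;> simp at h
        · simp only [Sum.elim_inl, Sum.elim_inr] at h
          obtain ⟨s, rfl⟩ := finSumFinEquiv.surjective i
          rw [Equiv.symm_apply_apply] at h
          rcases s with s | s <;> simp at h
        · simp only [Sum.elim_inl, Sum.elim_inr] at h
          obtain ⟨s, rfl⟩ := finSumFinEquiv.surjective i
          rw [Equiv.symm_apply_apply] at h
          rcases s with s | s <;> simp at h
        · simp only [Sum.elim_inr] at h
          obtain ⟨s, rfl⟩ := finSumFinEquiv.surjective i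
          obtain ⟨t, rfl⟩ := finSumFinEquiv.surjective j
          rw [Equiv.symm_apply_apply, Equiv.symm_apply_apply] at h
          rcases s with s | s <;> rcases t with t | t <;> simp at h <;> simp [h]
      · rintro ((_ | i) | i)
        · simp
        · simp
        · obtain ⟨s, rfl⟩ := finSumFinEquiv.surjective i
          rcases s with s | s <;> simp
    have F2' : Emp (fun o : Option (Fin r ⊕ Fin c) =>
        o.elim (δ + 1) (Sum.elim (fun _ : Fin r => m) (fun _ : Fin c => 1))) (TZ d) := by
      refine Emp_emb (Option.map Sum.inl) ?_ ?_ F2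
      · exact Option.map_injective Sum.inl_injective
      · rintro (_ | i) <;> simp
    have h := hM (fun _ : Fin (k ^ 2) => m) (Sum.elim (fun _ : Fin r => m) (fun _ : Fin c => 1))
      δ d p q hδ1 hq.le P1' P2 F1'' F2'
    refine Sur_of_ones (p := c) ?_ (by simp only [Pool.Agent.TH603.Sur.cond, sum_const, card_univ, Fintype.card_fin, smul_eq_mul]; rw [← hb, hn]; omega)
    refine Emp_emb (fun s => Sum.elim (fun i => Sum.inl (finSumFinEquiv (Sum.inl i)))
      (fun t => Sum.elim (fun i => Sum.inl (finSumFinEquiv (Sum.inr i))) Sum.inr t) s) ?_ ?_ h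
    · rintro (i | i | i) (j | j | j) h
      · simpa using h
      · simp only [Sum.elim_inl, Sum.elim_inr, Sum.inl.injEq] at h
        have := finSumFinEquiv.injective h
        simp at this
      · simp at h
      · simp only [Sum.elim_inl, Sum.elim_inr, Sum.inl.injEq] at h
        have := finSumFinEquiv.injective h
        simp at this
      · simpa using h
      · simp at h
      · simp at h
      · simp at h
      · simpa using h
    · rintro (i | i | i) <;> simp

end Pool.Agent.TH641.UM
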